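import Pool.Agent.Q270.EC.Loc
import Pool.Agent.Q239.EB.LIP
import Pool.Agent.Q239.EB.FUR2

/-!
Project EC (helper270): slowly varying functions of the numbers of prime factors at several places.
-/

set_option autoImplicit false

namespace Pool.Agent.Q270.EC

open Finset Filter Pool.Agent.Q270.EA Pool.Agent.Q270.EB
open Pool.Agent.W208.TL (sm)
open ArithmeticFunction (cardFactors)

/-- slowly varying functions -/
def Lip {m : ℕ} (δ : ℝ) (G : (Fin m → ℕ) → ℂ) : Prop :=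
  ∀ u v : Fin m → ℕ, ‖G u - G v‖ ≤ δ * ∑ l, |(u l : ℝ) - v l|

/-- the mean of a function of `Ω` over independent integers up to `N` -/
noncomputable def mnO {m : ℕ} (N : ℕ) (G : (Fin m → ℕ) → ℂ) : ℂ :=
  (1 / (N : ℂ) ^ m) * ∑ z ∈ Fintype.piFinset (fun _ : Fin m => Icc 1 N), G (fun l => cardFactors (z l))

lemma lip_avg {m : ℕ} (δ : ℝ) (hδ : 0 ≤ δ) (G : (Fin m → ℕ) → ℂ) (hL : Lip δ G) (w A N : ℕ)
    (y : ℕ) (a : Fin m → ℕ) (ha : ∀ l, N + a l < (y + 1) ^ (A + 1)) (hN : 1 ≤ N) (c : ℕ → ℂ)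
    (hc : ∀ n, ‖c n‖ ≤ 1) :
    ‖AvN N (fun n => G (fun l => cardFactors (n + a l)) * c n) -
      AvN N (fun n => G (fun l => cardFactors (sm w y (n + a l))) * c n)‖ ≤
      δ * ∑ l, (w + A : ℝ) * (1 + a l) := by
  have hN0 : (0 : ℝ) < N := by exact_mod_cast hN
  rw [← AvN_sub]
  unfold AvN
  rw [norm_mul, norm_div, norm_one, Complex.norm_natCast]
  have h1 : ‖∑ n ∈ Icc 1 N, (G (fun l => cardFactors (n + a l)) * c n -
      G (fun l => cardFactors (sm w y (n + a l))) * c n)‖ ≤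
      ∑ n ∈ Icc 1 N, δ * ∑ l, |(cardFactors (n + a l) : ℝ) - cardFactors (sm w y (n + a l))| := by
    refine (norm_sum_le _ _).trans (sum_le_sum fun n _ => ?_)
    rw [← sub_mul, norm_mul]
    calc ‖G (fun l => cardFactors (n + a l)) - G (fun l => cardFactors (sm w y (n + a l)))‖ * ‖c n‖
        ≤ ‖G (fun l => cardFactors (n + a l)) - G (fun l => cardFactors (sm w y (n + a l)))‖ * 1 :=
          mul_le_mul_of_nonneg_left (hc n) (norm_nonneg _)
      _ ≤ _ := by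
          rw [mul_one]
          exact hL _ _
  have h2 : ∀ l, ∑ n ∈ Icc 1 N, |(cardFactors (n + a l) : ℝ) - cardFactors (sm w y (n + a l))| ≤
      (w + A : ℝ) * (N + a l) := by
    intro l
    have h3 := Pool.Agent.Q239.EB.sum_shift (fun n => |(cardFactors n : ℝ) - cardFactors (sm w y n)|)
      (by
        have : sm w y 0 = 1 := by
          unfold sm
          simp
        simp [this]) (fun n => abs_nonneg _) (a l : ℤ) N
    have h4 : ∀ n : ℕ, ((n : ℤ) + (a l : ℤ)).toNat = n + a l := fun n => by omega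
    simp only [h4, Int.natAbs_natCast] at h3
    refine h3.trans ?_
    have h5 := Pool.Agent.Q239.EB.sum_diff w y A (N + a l) (ha l)
    push_cast at h5
    exact h5
  have h3 : ∑ n ∈ Icc 1 N, δ * ∑ l, |(cardFactors (n + a l) : ℝ) - cardFactors (sm w y (n + a l))| ≤
      δ * ∑ l, (w + A : ℝ) * (N + a l) := by
    rw [← mul_sum, sum_comm]
    exact mul_le_mul_of_nonneg_left (sum_le_sum fun l _ => h2 l) hδ
  calc 1 / (N : ℝ) * ‖∑ n ∈ Icc 1 N, (G (fun l => cardFactors (n + a l)) * c n -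
      G (fun l => cardFactors (sm w y (n + a l))) * c n)‖
      ≤ 1 / (N : ℝ) * (δ * ∑ l, (w + A : ℝ) * (N + a l)) :=
        mul_le_mul_of_nonneg_left (h1.trans h3) (by positivity)
    _ = δ * ∑ l, (w + A : ℝ) * (1 / (N : ℝ) * (N + a l)) := by
        rw [mul_sum, mul_sum, mul_sum]
        refine sum_congr rfl fun l _ => ?_
        ring
    _ ≤ δ * ∑ l, (w + A : ℝ) * (1 + a l) := by
        refine mul_le_mul_of_nonneg_left (sum_le_sum fun l _ => ?_) hδ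
        refine mul_le_mul_of_nonneg_left ?_ (by positivity)
        rw [mul_add, one_div_mul_cancel hN0.ne']
        have h6 : 1 / (N : ℝ) ≤ 1 := by
          rw [div_le_one hN0]
          exact_mod_cast hN
        have h7 : 1 / (N : ℝ) * a l ≤ 1 * a l := mul_le_mul_of_nonneg_right h6 (Nat.cast_nonneg _)
        linarith

lemma lip_mn {m : ℕ} (δ : ℝ) (hδ : 0 ≤ δ) (G : (Fin m → ℕ) → ℂ) (hL : Lip δ G) (w A N : ℕ)
    (y : ℕ) (ha : N < (y + 1) ^ (A + 1)) (hN : 1 ≤ N) :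
    ‖mnO N G - mnm w y N (fun d => G (fun l => cardFactors (d l)))‖ ≤ δ * (m * (w + A : ℝ)) := by
  have hN0 : (0 : ℝ) < N := by exact_mod_cast hN
  unfold mnO mnm
  rw [← mul_sub, ← sum_sub_distrib, norm_mul, norm_div, norm_one, norm_pow, Complex.norm_natCast]
  have h1 : ‖∑ z ∈ Fintype.piFinset (fun _ : Fin m => Icc 1 N), (G (fun l => cardFactors (z l)) -
      G (fun l => cardFactors (sm w y (z l))))‖ ≤
      ∑ z ∈ Fintype.piFinset (fun _ : Fin m => Icc 1 N),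
        δ * ∑ l, |(cardFactors (z l) : ℝ) - cardFactors (sm w y (z l))| := by
    refine (norm_sum_le _ _).trans (sum_le_sum fun z _ => ?_)
    exact hL _ _
  have h2 : ∀ l : Fin m, ∑ z ∈ Fintype.piFinset (fun _ : Fin m => Icc 1 N),
      |(cardFactors (z l) : ℝ) - cardFactors (sm w y (z l))| =
      (N : ℝ) ^ (m - 1) * ∑ n ∈ Icc 1 N, |(cardFactors n : ℝ) - cardFactors (sm w y n)| := by
    intro l
    have h3 := Finset.sum_prod_piFinset (ι := Fin m) (Icc 1 N) (fun i n =>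
      if i = l then |(cardFactors n : ℝ) - cardFactors (sm w y n)| else 1)
    have h4 : ∀ z : Fin m → ℕ, ∏ i, (if i = l then |(cardFactors (z i) : ℝ) -
        cardFactors (sm w y (z i))| else 1) = |(cardFactors (z l) : ℝ) - cardFactors (sm w y (z l))| := by
      intro z
      rw [prod_ite_eq' univ l]
      simp
    simp only [h4] at h3
    rw [h3, ← mul_prod_erase univ _ (mem_univ l)]
    simp only [if_true]
    rw [mul_comm]
    congr 1
    rw [prod_congr rfl fun i hi => ?_, prod_const, card_erase_of_mem (mem_univ l), card_univ,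
      Fintype.card_fin]
    rw [sum_congr rfl fun n _ => if_neg (ne_of_mem_erase hi)]
    simp
  have h3 := Pool.Agent.Q239.EB.sum_diff w y A N ha
  calc 1 / (N : ℝ) ^ m * _ ≤ 1 / (N : ℝ) ^ m * ∑ z ∈ Fintype.piFinset (fun _ : Fin m => Icc 1 N),
        δ * ∑ l, |(cardFactors (z l) : ℝ) - cardFactors (sm w y (z l))| :=
        mul_le_mul_of_nonneg_left h1 (by positivity)
    _ = 1 / (N : ℝ) ^ m * (δ * ∑ l : Fin m, (N : ℝ) ^ (m - 1) *
        ∑ n ∈ Icc 1 N, |(cardFactors n : ℝ) - cardFactors (sm w y n)|) := by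
        rw [← mul_sum, sum_comm, sum_congr rfl fun l _ => h2 l]
    _ ≤ 1 / (N : ℝ) ^ m * (δ * ∑ l : Fin m, (N : ℝ) ^ (m - 1) * ((w + A : ℝ) * N)) := by
        gcongr
    _ = δ * (m * (w + A : ℝ)) := by
        rw [sum_const, card_univ, Fintype.card_fin, nsmul_eq_mul]
        rcases Nat.eq_zero_or_pos m with h0 | h0
        · subst h0
          simp
        · obtain ⟨m', rfl⟩ : ∃ m', m = m' + 1 := ⟨m - 1, by omega⟩
          simp only [Nat.add_sub_cancel]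
          field_simp
          ring

/-- slowly varying functions of the numbers of prime factors at several places -/
theorem mxom (m k : ℕ) (a : Fin m → ℕ) (b : Fin k → ℕ) (hm : 1 ≤ m) (hk : 1 ≤ k)
    (ha : Function.Injective a) (hab : ∀ l j, a l ≠ b j) (ε : ℝ) (hε : 0 < ε) :
    ∃ (δ : ℝ) (w X₀ : ℕ), 0 < δ ∧ ∀ X : ℕ, X₀ ≤ X →
    ∀ g G : Fin k → ℕ → ℂ, (∀ j, BM (g j)) → (∀ j, QM w (G j)) →
      LM X (fun N => ¬ ∀ Γ : (Fin m → ℕ) → ℂ, (∀ u, ‖Γ u‖ ≤ 1) → Lip δ Γ →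
        ‖AvN N (fun n => Γ (fun l => cardFactors (n + a l)) * ∏ j, (g j (n + b j) * G j (n + b j))) -
          mnO N Γ * AvN N (fun n => ∏ j, (g j (n + b j) * G j (n + b j)))‖ ≤ ε) ≤ ε := by
  classical
  obtain ⟨w₁, A₁, hA₁, h1⟩ := mxl m k a b hm hk ha hab (ε / 4) (by positivity)
  obtain ⟨w₂, A₂, hA₂, h2⟩ := mx0 m a hm ha (ε / 4) (by positivity)
  obtain ⟨w, hw⟩ : ∃ w, w = max w₁ w₂ := ⟨_, rfl⟩
  obtain ⟨A, hA⟩ : ∃ A, A = A₁ + A₂ := ⟨_, rfl⟩
  obtain ⟨X₁, h1⟩ := h1 w (by rw [hw]; exact le_max_left _ _)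
  obtain ⟨N₀, h2⟩ := h2 w (by rw [hw]; exact le_max_right _ _)
  obtain ⟨N₁, hN₁⟩ : ∃ N₁, N₁ = N₀ + ∑ l, a l + 1 := ⟨_, rfl⟩
  obtain ⟨X₂, h3⟩ := LM_small N₁ (ε / 4) (by positivity)
  obtain ⟨C, hC⟩ : ∃ C : ℝ, C = ∑ l, (w + A : ℝ) * (1 + a l) + m * (w + A : ℝ) + 1 := ⟨_, rfl⟩
  have hC1 : 0 ≤ ∑ l, (w + A : ℝ) * (1 + a l) := sum_nonneg fun l _ => by positivity
  have hC0 : 0 < C := by rw [hC]; positivity
  refine ⟨ε / (4 * C), w, X₁ + X₂ + 1, by positivity, fun X hX g G hg hG => ?_⟩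
  obtain ⟨δ, hδ⟩ : ∃ δ, δ = ε / (4 * C) := ⟨_, rfl⟩
  have hδ0 : 0 < δ := by rw [hδ]; positivity
  rw [← hδ]
  have hδC : δ * C ≤ ε / 4 := by
    rw [hδ]
    apply le_of_eq
    field_simp
  have e1 := h1 X (by omega) g G hg hG
  have e2 := h3 X (by omega)
  refine (LM_mono X (Q := fun N => (¬ Ind w A₁ N a b (fun j n => g j n * G j n) (ε / 4)) ∨ N < N₁)
    fun N _ hN => ?_).trans ((LM_or X _ _).trans (by linarith))
  by_contra hcon
  push Not at hcon
  obtain ⟨hc1, hc2⟩ := hcon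
  apply hN
  intro Γ hΓ hL
  have hN1 : 1 ≤ N := by omega
  obtain ⟨y, hy⟩ : ∃ y, y = rt (A - 1) N := ⟨_, rfl⟩
  have hyA : y ^ A ≤ N := by
    have := rt_pow (A - 1) N
    rwa [Nat.sub_add_cancel (by omega), ← hy] at this
  have hlt : N < (y + 1) ^ A := by
    by_contra hcon
    push Not at hcon
    have h4 : y + 1 ≤ rt (A - 1) N := le_rt (by rwa [Nat.sub_add_cancel (by omega)])
    omega
  have hy1 : 1 ≤ y := by
    rw [hy]
    exact le_rt (by rw [one_pow]; exact hN1)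
  have hlt2 : ∀ s : ℕ, s ≤ ∑ l, a l → N + s < (y + 1) ^ (A + 1) := by
    intro s hs
    rw [pow_succ]
    have : (y + 1) ^ A * 2 ≤ (y + 1) ^ A * (y + 1) := Nat.mul_le_mul_left _ (by omega)
    omega
  have hyA₁ : y ^ A₁ ≤ N := (Nat.pow_le_pow_right hy1 (by omega)).trans hyA
  have hyA₂ : y ^ A₂ ≤ N := (Nat.pow_le_pow_right hy1 (by omega)).trans hyA
  have f1 := hc1 y hyA₁ (fun d => Γ (fun l => cardFactors (d l))) (fun d => hΓ _)
  have f2 := h2 N (by omega) y hyA₂ (fun d => Γ (fun l => cardFactors (d l))) (fun d => hΓ _)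
  have hF : ∀ n, ‖∏ j, (g j (n + b j) * G j (n + b j))‖ ≤ 1 := fun n => by
    rw [norm_prod]
    refine prod_le_one (fun _ _ => norm_nonneg _) fun j _ => ?_
    rw [norm_mul]
    exact mul_le_one₀ ((hg j).1 _) (norm_nonneg _) ((hG j).1 _)
  have f3 := lip_avg δ hδ0.le Γ hL w A N y a (fun l => hlt2 (a l)
    (single_le_sum (f := a) (fun _ _ => Nat.zero_le _) (mem_univ l))) hN1 _ hF
  have f4 := lip_mn δ hδ0.le Γ hL w A N y (by have := hlt2 0 (Nat.zero_le _); omega) hN1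
  obtain ⟨T, hT⟩ : ∃ T, T = AvN N (fun n => ∏ j, (g j (n + b j) * G j (n + b j))) := ⟨_, rfl⟩
  have hT1 : ‖T‖ ≤ 1 := by rw [hT]; exact norm_AvN_le hF N
  rw [← hT] at f1 ⊢
  obtain ⟨P, hP⟩ : ∃ P, P = AvN N (fun n => Γ (fun l => cardFactors (n + a l)) *
    ∏ j, (g j (n + b j) * G j (n + b j))) := ⟨_, rfl⟩
  obtain ⟨Q, hQ⟩ : ∃ Q, Q = AvN N (fun n => Γ (fun l => cardFactors (sm w y (n + a l))) *
    ∏ j, (g j (n + b j) * G j (n + b j))) := ⟨_, rfl⟩
  rw [← hP, ← hQ] at f3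
  rw [← hP]
  rw [← hQ] at f1
  obtain ⟨M, hM⟩ : ∃ M, M = AvN N (fun n => Γ (fun l => cardFactors (sm w y (n + a l)))) := ⟨_, rfl⟩
  rw [← hM] at f1 f2
  obtain ⟨M', hM'⟩ : ∃ M', M' = mnm w y N (fun d => Γ (fun l => cardFactors (d l))) := ⟨_, rfl⟩
  rw [← hM'] at f2 f4
  have g1 : P - mnO N Γ * T = (P - Q) + (Q - M * T) + (M - M') * T - (mnO N Γ - M') * T := by ring
  rw [g1]
  refine (norm_sub_le _ _).trans ?_
  refine le_trans (add_le_add (norm_add₃_le) le_rfl) ?_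
  rw [norm_mul, norm_mul]
  have g2 : ‖M - M'‖ * ‖T‖ ≤ ε / 4 := (mul_le_of_le_one_right (norm_nonneg _) hT1).trans f2
  have g3 : ‖mnO N Γ - M'‖ * ‖T‖ ≤ δ * (m * (w + A : ℝ)) :=
    (mul_le_of_le_one_right (norm_nonneg _) hT1).trans f4
  have g4 : δ * ∑ l, (w + A : ℝ) * (1 + a l) + δ * (m * (w + A : ℝ)) ≤ ε / 4 := by
    refine le_trans ?_ hδC
    rw [hC]
    nlinarith
  linarith

end Pool.Agent.Q270.EC
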