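import Pool.Agent.Q270.EC.Om

/-!
Project EC (helper270): residues of the numbers of prime factors.
-/

set_option autoImplicit false

namespace Pool.Agent.Q270.EC

open Finset Filter Pool.Agent.Q270.EA Pool.Agent.Q270.EB
open Pool.Agent.W208.TL (sm)
open ArithmeticFunction (cardFactors)

/-- the indicator function of a residue of `Ω` -/
noncomputable def ro (q r n : ℕ) : ℂ := if cardFactors n % q = r then 1 else 0

lemma QM_ro (w q r : ℕ) : QM w (ro q r) :=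
  Pool.Agent.Q239.EB.QM_Om w (fun l => if l % q = r then 1 else 0) (fun l => by split_ifs <;> simp)

lemma BM_one' : BM (fun _ => 1) := ⟨fun _ => by simp, rfl, fun _ _ _ => by simp⟩

/-- the residues at the places `b` -/
noncomputable def rs {k : ℕ} (q : ℕ) (b : Fin k → ℕ) (n : ℕ) : Fin k → ℕ :=
  fun j => cardFactors (n + b j) % q

/-- expansion of a function of the residues -/
lemma rs_exp {k : ℕ} (q : ℕ) (hq : 1 ≤ q) (b : Fin k → ℕ) (n : ℕ) (K : (Fin k → ℕ) → ℂ) :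
    K (rs q b n) = ∑ ρ ∈ Fintype.piFinset (fun _ : Fin k => range q),
      K ρ * ∏ j, (1 * ro q (ρ j) (n + b j)) := by
  have hm : rs q b n ∈ Fintype.piFinset (fun _ : Fin k => range q) := by
    rw [Fintype.mem_piFinset]
    intro j
    exact mem_range.2 (Nat.mod_lt _ (by omega))
  rw [sum_eq_single_of_mem _ hm]
  · unfold rs ro
    simp
  · intro ρ _ hρ
    obtain ⟨j, hj⟩ : ∃ j, ρ j ≠ rs q b n j := by
      by_contra hcon
      push Not at hcon
      exact hρ (funext hcon)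
    rw [prod_eq_zero (mem_univ j), mul_zero]
    unfold ro
    rw [if_neg, mul_zero]
    exact fun h => hj h.symm

/-- general form: a family of functions of the residues and of `n` -/
lemma rs_diff {k : ℕ} (q : ℕ) (hq : 1 ≤ q) (b : Fin k → ℕ) (N : ℕ) (ε : ℝ)
    (U : (Fin k → ℕ) → ℕ → ℂ) (T : (Fin k → ℕ) → ℂ)
    (h : ∀ ρ ∈ Fintype.piFinset (fun _ : Fin k => range q),
      ‖AvN N (fun n => U ρ n * ∏ j, (1 * ro q (ρ j) (n + b j))) -
        T ρ * AvN N (fun n => ∏ j, (1 * ro q (ρ j) (n + b j)))‖ ≤ ε) :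
    ‖AvN N (fun n => U (rs q b n) n) - AvN N (fun n => T (rs q b n))‖ ≤ (q : ℝ) ^ k * ε := by
  have h1 : AvN N (fun n => U (rs q b n) n) = ∑ ρ ∈ Fintype.piFinset (fun _ : Fin k => range q),
      AvN N (fun n => U ρ n * ∏ j, (1 * ro q (ρ j) (n + b j))) := by
    rw [← AvN_sum]
    congr 1
    funext n
    exact rs_exp q hq b n (fun ρ => U ρ n)
  have h2 : AvN N (fun n => T (rs q b n)) = ∑ ρ ∈ Fintype.piFinset (fun _ : Fin k => range q),
      T ρ * AvN N (fun n => ∏ j, (1 * ro q (ρ j) (n + b j))) := by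
    rw [← sum_congr rfl fun ρ _ => AvN_mul N (T ρ) _, ← AvN_sum]
    congr 1
    funext n
    exact rs_exp q hq b n T
  rw [h1, h2, ← sum_sub_distrib]
  refine (norm_sum_le _ _).trans ((sum_le_sum h).trans ?_)
  rw [sum_const, Fintype.card_piFinset, nsmul_eq_mul]
  simp

/-- residues at `k` places, slowly varying functions at `m` places -/
theorem mxres (m k q : ℕ) (a : Fin m → ℕ) (b : Fin k → ℕ) (hm : 1 ≤ m) (hk : 1 ≤ k) (hq : 1 ≤ q)
    (ha : Function.Injective a) (hab : ∀ l j, a l ≠ b j) (ε : ℝ) (hε : 0 < ε) :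
    ∃ (δ : ℝ) (X₀ : ℕ), 0 < δ ∧ ∀ X : ℕ, X₀ ≤ X →
      LM X (fun N => ¬ ∀ Γ : (Fin k → ℕ) → (Fin m → ℕ) → ℂ, (∀ ρ u, ‖Γ ρ u‖ ≤ 1) →
        (∀ ρ, Lip δ (Γ ρ)) →
        ‖AvN N (fun n => Γ (rs q b n) (fun l => cardFactors (n + a l))) -
          AvN N (fun n => mnO N (Γ (rs q b n)))‖ ≤ ε) ≤ ε := by
  classical
  have hq0 : (0 : ℝ) < q := by exact_mod_cast hq
  have hqk : (1 : ℝ) ≤ (q : ℝ) ^ k := one_le_pow₀ (by exact_mod_cast hq)
  obtain ⟨δ, w, X₀, hδ, h⟩ := mxom m k a b hm hk ha hab (ε / q ^ k) (by positivity)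
  refine ⟨δ, X₀, hδ, fun X hX => ?_⟩
  have h1 : ∀ ρ : Fin k → ℕ, _ := fun ρ =>
    h X hX (fun _ _ => 1) (fun j => ro q (ρ j)) (fun _ => BM_one') (fun j => QM_ro w q (ρ j))
  refine (LM_mono X (Q := fun N => ∃ ρ ∈ Fintype.piFinset (fun _ : Fin k => range q),
      ¬ ∀ Γ : (Fin m → ℕ) → ℂ, (∀ u, ‖Γ u‖ ≤ 1) → Lip δ Γ →
        ‖AvN N (fun n => Γ (fun l => cardFactors (n + a l)) * ∏ j, (1 * ro q (ρ j) (n + b j))) -
          mnO N Γ * AvN N (fun n => ∏ j, (1 * ro q (ρ j) (n + b j)))‖ ≤ ε / q ^ k)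
    fun N _ hN => ?_).trans ((LM_ex _ X _).trans ?_)
  · by_contra hcon
    push Not at hcon
    apply hN
    intro Γ hΓ hL
    have h2 := rs_diff q hq b N (ε / q ^ k) (fun ρ n => Γ ρ (fun l => cardFactors (n + a l)))
      (fun ρ => mnO N (Γ ρ)) (fun ρ hρ => hcon ρ hρ (Γ ρ) (hΓ ρ) (hL ρ))
    rw [mul_div_cancel₀ _ (by positivity)] at h2
    exact h2
  · refine (sum_le_sum fun ρ _ => h1 ρ).trans ?_
    rw [sum_const, Fintype.card_piFinset, nsmul_eq_mul]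
    simp only [prod_const, card_range, card_univ, Fintype.card_fin]
    push_cast
    rw [mul_div_cancel₀ _ (by positivity)]

/-- residues at `k` places, the parts at `m` places -/
theorem mxrest (m k q : ℕ) (a : Fin m → ℕ) (b : Fin k → ℕ) (hm : 1 ≤ m) (hk : 1 ≤ k) (hq : 1 ≤ q)
    (ha : Function.Injective a) (hab : ∀ l j, a l ≠ b j) (ε : ℝ) (hε : 0 < ε) :
    ∃ w₀ A : ℕ, 1 ≤ A ∧ ∀ w : ℕ, w₀ ≤ w → ∃ X₀ : ℕ, ∀ X : ℕ, X₀ ≤ X →
      LM X (fun N => ¬ ∀ y : ℕ, y ^ A ≤ N → ∀ H : (Fin k → ℕ) → (Fin m → ℕ) → ℂ,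
        (∀ ρ d, ‖H ρ d‖ ≤ 1) →
        ‖AvN N (fun n => H (rs q b n) (fun l => sm w y (n + a l))) -
          AvN N (fun n => AvN N (fun n' => H (rs q b n) (fun l => sm w y (n' + a l))))‖ ≤ ε) ≤ ε := by
  classical
  have hq0 : (0 : ℝ) < q := by exact_mod_cast hq
  have hqk : (1 : ℝ) ≤ (q : ℝ) ^ k := one_le_pow₀ (by exact_mod_cast hq)
  obtain ⟨w₀, A, hA, h⟩ := mxl m k a b hm hk ha hab (ε / q ^ k) (by positivity)
  refine ⟨w₀, A, hA, fun w hw => ?_⟩
  obtain ⟨X₀, h⟩ := h w hw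
  refine ⟨X₀, fun X hX => ?_⟩
  have h1 : ∀ ρ : Fin k → ℕ, _ := fun ρ =>
    h X hX (fun _ _ => 1) (fun j => ro q (ρ j)) (fun _ => BM_one') (fun j => QM_ro w q (ρ j))
  refine (LM_mono X (Q := fun N => ∃ ρ ∈ Fintype.piFinset (fun _ : Fin k => range q),
      ¬ Ind w A N a b (fun j n => 1 * ro q (ρ j) n) (ε / q ^ k))
    fun N _ hN => ?_).trans ((LM_ex _ X _).trans ?_)
  · by_contra hcon
    push Not at hcon
    apply hN
    intro y hy H hH
    have h2 := rs_diff q hq b N (ε / q ^ k) (fun ρ n => H ρ (fun l => sm w y (n + a l)))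
      (fun ρ => AvN N (fun n' => H ρ (fun l => sm w y (n' + a l))))
      (fun ρ hρ => hcon ρ hρ y hy (H ρ) (hH ρ))
    rw [mul_div_cancel₀ _ (by positivity)] at h2
    exact h2
  · refine (sum_le_sum fun ρ _ => h1 ρ).trans ?_
    rw [sum_const, Fintype.card_piFinset, nsmul_eq_mul]
    simp only [prod_const, card_range, card_univ, Fintype.card_fin]
    push_cast
    rw [mul_div_cancel₀ _ (by positivity)]

end Pool.Agent.Q270.EC
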